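import Pool.Agent.W601.RP.Stm2

set_option autoImplicit false
open scoped Classical
open Filter Topology

namespace Pool.Agent.W804.RP

open Pool.Agent.W601.RP

noncomputable section

/-- Doubling. -/
theorem norm_two (w : TT) (hw : ‖w‖ < 1 / 4) : ‖2 • w‖ = 2 * ‖w‖ := by
  obtain ⟨a, rfl⟩ := QuotientAddGroup.mk_surjective w
  have h0 : (((round a : ℤ) : ℝ) : UnitAddCircle) = 0 := by
    rw [AddCircle.coe_eq_zero_iff]
    exact ⟨round a, by simp⟩
  have h1 : ((a : ℝ) : UnitAddCircle) = ((a - (round a : ℤ) : ℝ) : UnitAddCircle) := by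
    rw [AddCircle.coe_sub, h0, sub_zero]
  have hn : ‖((a : ℝ) : UnitAddCircle)‖ = |a - round a| := UnitAddCircle.norm_eq
  change ‖((a : ℝ) : UnitAddCircle)‖ < 1 / 4 at hw
  change ‖2 • ((a : ℝ) : UnitAddCircle)‖ = 2 * ‖((a : ℝ) : UnitAddCircle)‖
  rw [hn] at hw ⊢
  rw [h1]
  set b := a - (round a : ℤ) with hb
  have h2 : 2 • ((b : ℝ) : UnitAddCircle) = (((2 * b : ℝ)) : UnitAddCircle) := by
    rw [two_nsmul, two_mul, AddCircle.coe_add]
  rw [h2]
  have h3 : |2 * b| = 2 * |b| := by rw [abs_mul, abs_two]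
  rw [← h3]
  refine (AddCircle.norm_coe_eq_abs_iff (p := (1 : ℝ)) (by norm_num)).2 ?_
  rw [h3, abs_one]
  linarith

/-- No small subgroups. -/
theorem circ0 (v : TT) (h : ∀ m : ℕ, ‖m • v‖ < 1 / 4) : v = 0 := by
  have key : ∀ j : ℕ, ‖(2 ^ j) • v‖ = 2 ^ j * ‖v‖ := by
    intro j
    induction j with
    | zero => simp
    | succ j ih =>
      have h1 : (2 ^ (j + 1)) • v = 2 • ((2 ^ j) • v) := by
        rw [← mul_nsmul, pow_succ]
      rw [h1, norm_two _ (h _), ih, pow_succ]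
      ring
  by_contra hv
  have hpos : 0 < ‖v‖ := norm_pos_iff.2 hv
  obtain ⟨j, hj⟩ := pow_unbounded_of_one_lt (1 / 4 / ‖v‖) (one_lt_two : (1 : ℝ) < 2)
  have h2 := h (2 ^ j)
  rw [key] at h2
  rw [div_lt_iff₀ hpos] at hj
  linarith

/-- A homomorphism on the free group is a pairing. -/
theorem chi_eq (χ : (ℕ →₀ ℤ) →+ TT) (k : ℕ →₀ ℤ) :
    χ k = pr k (fun t => χ (Finsupp.single t 1)) := by
  unfold pr
  conv_lhs => rw [← Finsupp.sum_single k]
  rw [map_finsuppSum]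
  refine Finsupp.sum_congr ?_
  intro t _
  have h : Finsupp.single t (k t) = (k t) • (Finsupp.single t (1 : ℤ)) := by
    rw [Finsupp.smul_single, smul_eq_mul, mul_one]
  rw [h, map_zsmul]

theorem prod_le_of {F : Finset (ℕ → TT)} {w : (ℕ → TT) → ℝ} (hw : ∀ h, 0 ≤ w h ∧ w h ≤ 1)
    {ρ : ℝ} {h0 : ℕ → TT} (h0F : h0 ∈ F) (h0ρ : w h0 ≤ ρ) : ∏ h ∈ F, w h ≤ ρ := by
  rw [← Finset.mul_prod_erase F w h0F]
  have h1 : ∏ h ∈ F.erase h0, w h ≤ 1 := Finset.prod_le_one (fun i _ => (hw i).1)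
    (fun i _ => (hw i).2)
  have h2 : 0 ≤ ∏ h ∈ F.erase h0, w h := Finset.prod_nonneg (fun i _ => (hw i).1)
  have h3 := (hw h0).1
  nlinarith

theorem le_prod_of {F : Finset (ℕ → TT)} {w : (ℕ → TT) → ℝ} {ρ : ℝ} (h0 : 0 ≤ ρ)
    (h : ∀ h ∈ F, ρ ≤ w h) : ρ ^ F.card ≤ ∏ h ∈ F, w h := by
  rw [← Finset.prod_const]
  exact Finset.prod_le_prod (fun _ _ => h0) h

/-- The orthogonality relation. -/
theorem orth (hPZ : S_PZ) (hD1 : S_D1) (hD4 : S_D4) (hV : ∀ h ∈ H, Vh h) (F : Finset (ℕ → TT))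
    (hF : ∀ h ∈ F, h ∈ H) (y : ℕ → TT) (hy : Vh y) (hyH : y ∉ H) (m : ℕ) :
    ∃ n : ℕ, ∑ z : Gm n, (∏ h ∈ F, ww (pz z h)) ^ m *
      ((AddCircle.toCircle (pz z y) : Circle) : ℂ).re = 0 := by
  obtain ⟨s, c, hs, hP⟩ := hD4 F m hF
  have h1 : ∀ g ∈ s, ∃ t, g t ≠ y t := by
    intro g hg
    by_contra hcon
    push Not at hcon
    exact hyH ((funext hcon : g = y) ▸ hs g hg)
  choose! T hT using h1
  obtain ⟨n, hn⟩ : ∃ n : ℕ, ∀ g ∈ s, T g < n :=
    ⟨s.sup T + 1, fun g hg => Nat.lt_succ_of_le (Finset.le_sup hg)⟩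
  refine ⟨n, ?_⟩
  have hz : ∀ g ∈ s, ∑ z : Gm n, ((AddCircle.toCircle (pz z (g - y)) : Circle) : ℂ) = 0 := by
    intro g hg
    refine hD1 n (g - y) ?_ ⟨T g, hn g hg, ?_⟩
    · intro t
      rw [Pi.sub_apply, nsmul_sub, hV g (hs g hg) t, hy t, sub_zero]
    · rw [Pi.sub_apply]
      exact sub_ne_zero.2 (hT g hg)
  have hmul : ∀ (z : Gm n) (g : ℕ → TT), ((AddCircle.toCircle (pz z g) : Circle) : ℂ) *
      (starRingEnd ℂ) ((AddCircle.toCircle (pz z y) : Circle) : ℂ) =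
      ((AddCircle.toCircle (pz z (g - y)) : Circle) : ℂ) := by
    intro z g
    have e1 : pz z g = pz z (g - y) + pz z y := by
      rw [← hPZ.2.1 n (g - y) y z, sub_add_cancel]
    rw [e1, AddCircle.toCircle_add, Circle.coe_mul, mul_assoc, Complex.mul_conj,
      Circle.normSq_coe, Complex.ofReal_one, mul_one]
  have hsum : ∑ z : Gm n, (((∏ h ∈ F, ww (pz z h)) ^ m : ℝ) : ℂ) *
      (starRingEnd ℂ) ((AddCircle.toCircle (pz z y) : Circle) : ℂ) = 0 := by
    have e2 : ∀ z : Gm n, (((∏ h ∈ F, ww (pz z h)) ^ m : ℝ) : ℂ) *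
        (starRingEnd ℂ) ((AddCircle.toCircle (pz z y) : Circle) : ℂ) =
        ∑ g ∈ s, c g * ((AddCircle.toCircle (pz z (g - y)) : Circle) : ℂ) := by
      intro z
      rw [hP n z, Finset.sum_mul]
      refine Finset.sum_congr rfl ?_
      intro g _
      rw [mul_assoc, hmul z g]
    rw [Finset.sum_congr rfl (fun z _ => e2 z), Finset.sum_comm]
    refine Finset.sum_eq_zero ?_
    intro g hg
    rw [← Finset.mul_sum, hz g hg, mul_zero]
  have hre := congrArg Complex.re hsum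
  rw [Complex.re_sum, Complex.zero_re] at hre
  rw [← hre]
  refine Finset.sum_congr rfl ?_
  intro z _
  rw [Complex.re_ofReal_mul, Complex.conj_re]

/-- Characters continuous for the topology given by `H` are evaluations at elements of `H`. -/
theorem dual : S_NULL → S_RED → S_PZ → S_D1 → S_D2 → S_WW → S_D4 → S_DUAL := by
  intro hNULL _ hPZ hD1 hD2 hWW hD4 χ F δ hδ hF hχ
  set y : ℕ → TT := fun t => χ (Finsupp.single t 1) with hydef
  have hV : ∀ h ∈ H, Vh h := hNULL.2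
  have hχy : ∀ k : ℕ →₀ ℤ, χ k = pr k y := chi_eq χ
  have hy : Vh y := by
    intro t
    apply circ0
    intro m
    have h1 : χ (Finsupp.single t ((m * N t : ℕ) : ℤ)) = m • (N t • y t) := by
      rw [hχy]
      unfold pr
      rw [Finsupp.sum_single_index (zero_zsmul _), natCast_zsmul, mul_comm m (N t), mul_nsmul]
    rw [← h1]
    refine lt_trans (hχ _ ?_) (by norm_num)
    intro h hh
    have h2 : pr (Finsupp.single t ((m * N t : ℕ) : ℤ)) h = 0 := by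
      unfold pr
      rw [Finsupp.sum_single_index (zero_zsmul _), natCast_zsmul, mul_comm m (N t), mul_nsmul,
        hV h (hF h hh) t, nsmul_zero]
    rw [h2, norm_zero]
    exact hδ
  by_contra hcon
  push Not at hcon
  have hyH : y ∉ H := by
    intro hyH
    obtain ⟨k, hk⟩ := hcon y hyH
    exact hk (hχy k)
  obtain ⟨ρ, hρ0, hρ1, hρ⟩ := hWW.2.1 δ hδ
  -- the second constant
  set r : ℕ := F.card with hr
  set ρ' : ℝ := 1 - (1 - ρ) / (2 * ((r : ℝ) + 1)) with hρ'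
  have hr0 : (0 : ℝ) ≤ (r : ℝ) := Nat.cast_nonneg r
  have hε0 : 0 < (1 - ρ) / (2 * ((r : ℝ) + 1)) := by
    apply div_pos <;> linarith
  have hε1 : (1 - ρ) / (2 * ((r : ℝ) + 1)) ≤ 1 / 2 := by
    rw [div_le_iff₀ (by linarith)]
    nlinarith
  have hε2 : (r : ℝ) * ((1 - ρ) / (2 * ((r : ℝ) + 1))) < 1 - ρ := by
    rw [mul_div_assoc', div_lt_iff₀ (by linarith)]
    nlinarith
  have hρ'1 : ρ' < 1 := by rw [hρ']; linarith
  have hρ'0 : 0 ≤ ρ' := by rw [hρ']; linarith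
  have hpow : ρ < ρ' ^ r := by
    have hb := one_add_mul_le_pow (a := -((1 - ρ) / (2 * ((r : ℝ) + 1)))) (by linarith) r
    have e : 1 + -((1 - ρ) / (2 * ((r : ℝ) + 1))) = ρ' := by rw [hρ']; ring
    rw [e] at hb
    linarith
  obtain ⟨m1, hm1, hm1w⟩ := hWW.2.2.1 ρ' hρ'1
  set a : ℝ := ρ' ^ r with ha
  have ha0 : 0 < a := lt_trans hρ0 hpow
  have hm1r : (0 : ℝ) < (m1 : ℝ) ^ r := by positivity
  -- the main inequality
  have main : ∀ m : ℕ, a ^ m ≤ (m1 : ℝ) ^ r * (3 * ρ ^ m) := by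
    intro m
    obtain ⟨n, hn⟩ := orth hPZ hD1 hD4 hV F hF y hy hyH m
    have hPnn : ∀ z : Gm n, 0 ≤ (∏ h ∈ F, ww (pz z h)) ^ m := fun z =>
      pow_nonneg (Finset.prod_nonneg (fun h _ => (hWW.1 _).1)) m
    have hpt : ∀ z : Gm n, 1 / 2 * (∏ h ∈ F, ww (pz z h)) ^ m - 3 / 2 * ρ ^ m ≤
        (∏ h ∈ F, ww (pz z h)) ^ m * ((AddCircle.toCircle (pz z y) : Circle) : ℂ).re := by
      intro z
      have hρm : 0 ≤ ρ ^ m := pow_nonneg hρ0.le m
      by_cases hB : ∀ h ∈ F, ‖pz z h‖ < δ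
      · obtain ⟨k, hk⟩ := hPZ.2.2 n z
        have h1 : ‖pz z y‖ < 1 / 6 := by
          rw [← hk y, ← hχy k]
          refine hχ k ?_
          intro h hh
          rw [hk h]
          exact hB h hh
        have h2 := hWW.2.2.2 _ h1
        have h3 := hPnn z
        nlinarith [mul_le_mul_of_nonneg_left h2 h3]
      · push Not at hB
        obtain ⟨h0, h0F, h0δ⟩ := hB
        have h1 : ∏ h ∈ F, ww (pz z h) ≤ ρ :=
          prod_le_of (w := fun h => ww (pz z h)) (fun h => hWW.1 _) h0F (hρ _ h0δ)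
        have h2 : (∏ h ∈ F, ww (pz z h)) ^ m ≤ ρ ^ m :=
          pow_le_pow_left₀ (Finset.prod_nonneg (fun h _ => (hWW.1 _).1)) h1 m
        have h3 : -1 ≤ ((AddCircle.toCircle (pz z y) : Circle) : ℂ).re := by
          have h4 := Complex.abs_re_le_norm ((AddCircle.toCircle (pz z y) : Circle) : ℂ)
          rw [Circle.norm_coe] at h4
          exact (abs_le.1 h4).1
        have h5 := hPnn z
        nlinarith [mul_le_mul_of_nonneg_left h3 h5]
    have hcard : (0 : ℝ) < (Fintype.card (Gm n) : ℝ) := by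
      have : 0 < Fintype.card (Gm n) := Fintype.card_pos
      exact_mod_cast this
    have hS1 : ∑ z : Gm n, (∏ h ∈ F, ww (pz z h)) ^ m ≤ (Fintype.card (Gm n) : ℝ) * (3 * ρ ^ m) := by
      have h1 := Finset.sum_le_sum (s := (Finset.univ : Finset (Gm n))) (fun z _ => hpt z)
      rw [hn, Finset.sum_sub_distrib, ← Finset.mul_sum, Finset.sum_const, Finset.card_univ,
        nsmul_eq_mul] at h1
      linarith
    have hD := hD2 n F (fun h hh => hV h (hF h hh)) m1 hm1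
    set B1 := Finset.univ.filter (fun z : Gm n => ∀ h ∈ F, ‖pz z h‖ ≤ 1 / (m1 : ℝ)) with hB1
    have hS2 : (B1.card : ℝ) * a ^ m ≤ ∑ z : Gm n, (∏ h ∈ F, ww (pz z h)) ^ m := by
      calc (B1.card : ℝ) * a ^ m = ∑ z ∈ B1, a ^ m := by rw [Finset.sum_const, nsmul_eq_mul]
        _ ≤ ∑ z ∈ B1, (∏ h ∈ F, ww (pz z h)) ^ m := by
            refine Finset.sum_le_sum ?_
            intro z hz
            have hz' := (Finset.mem_filter.1 hz).2
            refine pow_le_pow_left₀ ha0.le ?_ m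
            exact le_prod_of (w := fun h => ww (pz z h)) hρ'0 (fun h hh => hm1w _ (hz' h hh))
        _ ≤ ∑ z : Gm n, (∏ h ∈ F, ww (pz z h)) ^ m :=
            Finset.sum_le_sum_of_subset_of_nonneg (Finset.subset_univ _) (fun z _ _ => hPnn z)
    have ham : 0 < a ^ m := pow_pos ha0 m
    have h6 : (Fintype.card (Gm n) : ℝ) * a ^ m ≤
        (Fintype.card (Gm n) : ℝ) * ((m1 : ℝ) ^ r * (3 * ρ ^ m)) := by
      calc (Fintype.card (Gm n) : ℝ) * a ^ m ≤ ((m1 : ℝ) ^ r * (B1.card : ℝ)) * a ^ m :=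
            mul_le_mul_of_nonneg_right hD ham.le
        _ = (m1 : ℝ) ^ r * ((B1.card : ℝ) * a ^ m) := by ring
        _ ≤ (m1 : ℝ) ^ r * ((Fintype.card (Gm n) : ℝ) * (3 * ρ ^ m)) :=
            mul_le_mul_of_nonneg_left (hS2.trans hS1) hm1r.le
        _ = _ := by ring
    exact le_of_mul_le_mul_left h6 hcard
  -- contradiction
  have hq : 1 < a / ρ := (one_lt_div hρ0).2 hpow
  obtain ⟨m, hm⟩ := pow_unbounded_of_one_lt ((m1 : ℝ) ^ r * 3) hq
  have h7 := main m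
  rw [div_pow, lt_div_iff₀ (pow_pos hρ0 m)] at hm
  linarith

end

end Pool.Agent.W804.RP
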